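import Pool.Agent.Q251.LG.Win

set_option autoImplicit false

/-! Quadratic Poincare complexes over the integral group ring of a group without elements of order two,
with an orientation character, such that the Laplacian of the mapping cone of the duality map is at least
`1 / K ^ 2`, or the cone has a contraction of norm at most `K`, and the boundary operator of the cone has
norm at most `3 / √2` plus a number which depends only on `K`, are sums of quadratic Poincare complexes
induced from virtually cyclic (cyclic, if the group is torsion-free) subgroups. -/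

namespace Pool.Agent.Results.MP_c13a79_gt.GapWindow

open Matrix TH57.Thr TH6.LF TH6.PF TH6.CX TH6.CR

theorem result (Γ : Type) [Group Γ] (hno : ∀ g : Γ, g * g = 1 → g = 1) (w : Γ →* ℤˣ)
    (ι : Type) [Fintype ι] [DecidableEq ι] (deg : ι → ℕ) (n : ℕ)
    (d : Matrix ι ι (MonoidAlgebra ℤ Γ)) (ψ : ℕ → Matrix ι ι (MonoidAlgebra ℤ Γ))
    (hψ : TH6.CR.IsQuadratic w deg n d ψ)
    (hP : ∃ t, IsCt (coneDeg deg n) (TH6.CR.cone w deg n d ψ) t)
    (K : ℕ)
    (hG : (∀ x : ι ⊕ ι → MonoidAlgebra ℝ Γ, normSq x ≤ (K : ℝ) ^ 2 *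
        normSq (x ᵥ* toReal (TH6.CR.cone w deg n d ψ + adj (TH6.CR.cone w deg n d ψ)))) ∨
      ∃ t : Matrix (ι ⊕ ι) (ι ⊕ ι) (MonoidAlgebra ℤ Γ),
        IsCt (coneDeg deg n) (TH6.CR.cone w deg n d ψ) t ∧ NormLE t K)
    (hK : NormLE (TH6.CR.cone w deg n d ψ) (3 / Real.sqrt 2 + (1 / 2) ^ (8 * K + 31))) :
    Pool.Agent.Q251.LG.SumOver IsVC w deg n d ψ ∧
    ((∀ g : Γ, ∀ k : ℕ, 0 < k → g ^ k = 1 → g = 1) →
      Pool.Agent.Q251.LG.SumOver (fun C => IsCyclic C) w deg n d ψ) := by
  rcases hG with h | ⟨t, h1, h2⟩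
  · exact Pool.Agent.Q251.LG.window_main hno hψ hP (Or.inr (Or.inl ⟨K, h, hK⟩))
  · exact Pool.Agent.Q251.LG.window_main hno hψ hP (Or.inr (Or.inr ⟨K, t, h1, h2, hK⟩))

end Pool.Agent.Results.MP_c13a79_gt.GapWindow
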