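import Pool.Agent.Q27.MX.Per

/-!
# Groups acting on trees whose edge stabilizers are of different kinds

`C` is any class of groups which contains the metabelian groups and has the closure properties
`ClosedA C` (the usual closure properties `ClosedE C` and closure under acylindrical actions on
trees, in the fibered version); all of this is known for the class of the groups which satisfy the
L-theoretic Farrell–Jones conjecture with coefficients and finite wreath products. For its
torsion-free members, in particular for the Poincaré duality groups in it, the assembly map of the
problem is an isomorphism.

`G` acts without inversions on a tree, all vertex stabilizers are in `C`. An edge `e` at the vertex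
`v` is

* of the kind V (`KindV`) if `G_e` is virtually cyclic and each `z` in `G_e` of infinite order is
  balanced in `G`, or has no power in the commutator subgroup of the group `Kz z v` of the elements
  of `G_v` which commute with a power of `z`, or is balanced in `G_v` and has no power in the
  commutator subgroup of the subgroup `NzG T z v` of `Kz z v` which is generated by its elements
  that fix an edge at `v` fixed by a power of `z` (the second condition holds e.g. if `G_v` has a
  linear representation in which no power of `z` is unipotent, `Q182.De.al_of_linDet`);
* of the kind F (`FinType`) if `G_e` has finite index in the group of the elements of `G_v` which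
  commensurate `G_e`, and this group is virtually solvable with all subgroups finitely generated
  (virtually polycyclic), or virtually torsion-free nilpotent (not necessarily finitely generated).

1. If all infinite edge stabilizers are of one of these kinds at both ends and the stabilizers of
two edges with a common vertex are commensurable or have a finite intersection, then `G` is in `C`.

2. If each `G_v` has a conjugation invariant family of self-normalizing virtually polycyclic or
virtually torsion-free nilpotent subgroups with finite intersections (e.g. the peripheral subgroups
and the maximal virtually cyclic loxodromic subgroups of a relatively hyperbolic group), and all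
infinite edge stabilizers have finite index in a member of the family, or are of the kind V and
transversal to the family, then `G` is in `C`.

The edge groups may be glued in any way (the groups generated by the commensurating isomorphisms
may be infinite, so the tree has unbounded segments with an infinite stabilizer).

Outline of the proof. Commensurability of stabilizers defines the tree of cylinders, an acylindrical
action up to finite stabilizers (`Q182.De.reduce`), and it remains to prove that the commensurators of
the infinite edge stabilizers are in `C`. Such a commensurator acts on its cylinder with
commensurable edge stabilizers. If these are not virtually cyclic all edges of the cylinder have the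
kind F, and the stabilizers of the vertices of the cylinder are finite index overgroups of the edge
stabilizers, hence commensurable; the theorem on generalized Baumslag–Solitar groups with such vertex
groups (`MP_59dd5b_al.PolycyclicTrees`) applies. If they are virtually cyclic the edges of the kind F
have detection (the commensurator of `z` in `G_v` is virtually cyclic), the kinds V and F may be
mixed in the cylinder, and the logarithms of the elliptic elements are defined as in
`MP_f7db47_al.CyclicEdgeDetection`.
-/

set_option autoImplicit false

namespace Pool.Agent.Results.MP_c13a79_gt.MixedEdges

open Q182.Cyl (ClosedA Est)
open Q27.MX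
open scoped Pointwise

/-- **the theorem** -/
theorem result (C : ∀ (G : Type) [Group G], Prop) (hC : ClosedA C)
    (hmet : ∀ (G : Type) [Group G], derivedSeries G 2 = ⊥ → C G)
    (G V : Type) [Group G] [MulAction G V] (T : SimpleGraph V) (hT : T.IsTree)
    (hadj : ∀ (g : G) (v w : V), T.Adj v w → T.Adj (g • v) (g • w))
    (hinv : ∀ (g : G) (v w : V), T.Adj v w → ¬ (g • v = w ∧ g • w = v))
    (hst : ∀ v : V, C (MulAction.stabilizer G v)) :
    -- 1. edge stabilizers of the kinds V and F
    ((∀ v w w' : V, T.Adj v w → T.Adj v w' →
        Subgroup.Commensurable (Est G v w) (Est G v w') ∨ Finite ↥(Est G v w ⊓ Est G v w')) →
      (∀ v w : V, T.Adj v w → Infinite (Est G v w) → FinType G v w ∨ KindV G T v w) → C G) ∧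
    -- 2. peripheral subgroups
    (∀ P : V → Set (Subgroup G),
      (∀ v, ∀ A ∈ P v, Vp A) →
      (∀ v, ∀ A ∈ P v, ∀ g : G, g • v = v → ConjAct.toConjAct g • A ∈ P v) →
      (∀ v, ∀ A ∈ P v, ∀ B ∈ P v, Infinite ↥(A ⊓ B) → A = B) →
      (∀ v, ∀ A ∈ P v, ∀ g : G, g • v = v → ConjAct.toConjAct g • A = A → g ∈ A) →
      (∀ v w : V, T.Adj v w → Infinite (Est G v w) →
        (∃ A ∈ P v, Est G v w ≤ A ∧ (Est G v w).relIndex A ≠ 0) ∨
        ((∀ A ∈ P v, Finite ↥(A ⊓ Est G v w)) ∧ KindV G T v w)) → C G) :=
  ⟨fun h1 h2 => mix_fv hC hmet ⟨hT, hadj, hinv⟩ hst h1 h2,
    fun P h1 h2 h3 h4 h5 => mix_per hC hmet ⟨hT, hadj, hinv⟩ hst P h1 h2 h3 h4 h5⟩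

end Pool.Agent.Results.MP_c13a79_gt.MixedEdges
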