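import Pool.Agent.Q27.TNS.Small

/-!
# Farrell–Jones groups: trees and normal subgroups with many torsion-free quotients

`ClosedF C` lists closure properties of the class of groups which satisfy the L-theoretic (or
K-theoretic) Farrell–Jones conjecture with coefficients and finite wreath products: subgroups, finite
products, free products, overgroups of finite index, directed colimits, the extension criterion,
extensions with free kernel. `ClosedA C` is closure under acylindrical actions on trees in the
fibered version (Knopf; Bunke, Kasprowski, Winges). `D = C` is allowed. Torsion-free groups in the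
L-theoretic class satisfy the isomorphism of the question.

Outline of the proof. Let `G` act on a tree and let `N` be normal in `G`. The extension criterion
reduces the claim to the groups `N⟨g⟩`, and directed unions to their finitely generated subgroups
`W`. Such a group acts with finitely many orbits of edges on an invariant subtree. Given finitely
many edges, there is an admissible kernel `K` in `N` which meets their stabilizers trivially. It is
not invariant under `g`; but `N⟨g⟩` has a homomorphism to a group in `C` (an unrestricted wreath
product with `ℤ`, or a sum of conjugates of a representation, which is defined over a number field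
up to extensions by scalars) whose kernel meets `N` in a subgroup of `K`. So it is injective on the
stabilizers in `N` of all edges in the orbits under `W` of the given edges, and our theorem
`MP_2a0850_gt.EdgeInjectiveTrees` applies to `W`.
-/

set_option autoImplicit false

namespace Pool.Agent.Results.MP_c13a79_gt.ResiduallySolvableTrees

open Matrix
open Q30.FJ (ClosedOver ClosedF)
open Q182.Cyl (ClosedA)
open Q27.HKN (Ser)
open Q27.TNS (Adm)

/-- Let `C` be a class of groups with the closure properties `ClosedF C` which contains all solvable
groups and the groups `GL_m(ℚ)`, and let the class `D` be closed under subgroups and satisfy the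
extension principle over `C` (`D = C` is possible). Let `G` act without inversions on a tree, and let
`N` be a normal subgroup with `G ⧸ N` in `D`, so that for each vertex the stabilizer in `G` is in `C`
or the stabilizer in `N` is in `Ser` (e.g. free or virtually solvable). `N_e` is the stabilizer in
`N` of an edge `e`. A subgroup `K` of `N` is admissible (`Adm`) if it is a finite intersection of
normal subgroups of `N` with quotient virtually solvable or satisfying `SLF`, kernels of
representations of `N` over algebraically closed fields of characteristic zero of degrees in which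
`N` has only finitely many characters, and kernels of restrictions to `N` of homomorphisms of `G` to
groups in `C`. Then `G` is in `D` in each of the following cases.

(1) For each edge `e` there is an admissible `K` with `N_e ∩ K = 1`.

(2) All `N_e` are small, and for each `x ≠ 1` in `N` there is an admissible `K` with
`⟨x⟩ ∩ K = 1` (e.g. `N` is virtually residually torsion-free solvable).

(3) `ClosedA C`, and for each edge `e` there is an admissible `K` with `N_e ∩ K` finite.

(4) `ClosedA C`, all `N_e` are small, and for each `x` of infinite order in `N` there is an
admissible `K` with `⟨x⟩ ∩ K = 1`.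

(5) The class of small subgroups is closed under overgroups of finite index and under extensions
by subgroups of `ℚ`; so it contains the virtually polycyclic groups and the torsion-free solvable
groups of finite rank. -/
theorem result (C D : ∀ (G : Type) [Group G], Prop) (hC : ClosedF C) (hD : ClosedOver C D)
    (hsol : ∀ (G : Type) [Group G], Group.IsSolvable G → C G) (hQQ : ∀ m : ℕ, C (GL (Fin m) ℚ))
    (G X : Type) [Group G] [MulAction G X] (T : SimpleGraph X) (hT : T.IsTree)
    (hadj : ∀ (g : G) (v w : X), T.Adj v w → T.Adj (g • v) (g • w))
    (hinv : ∀ (g : G) (v w : X), T.Adj v w → ¬ (g • v = w ∧ g • w = v))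
    (N : Subgroup G) [N.Normal] (hQ : D (G ⧸ N))
    (hst : ∀ v : X, C (MulAction.stabilizer G v) ∨ Ser (MulAction.stabilizer N v)) :
    ((∀ v w : X, T.Adj v w → ∃ K, Adm C N K ∧
      (MulAction.stabilizer N v ⊓ MulAction.stabilizer N w) ⊓ K = ⊥) → D G) ∧
    ((∀ v w : X, T.Adj v w →
        Q27.TNS.Small (MulAction.stabilizer N v ⊓ MulAction.stabilizer N w)) →
      (∀ x : N, x ≠ 1 → ∃ K, Adm C N K ∧ ∀ n : ℤ, x ^ n ∈ K → x ^ n = 1) → D G) ∧
    (ClosedA C → (∀ v w : X, T.Adj v w → ∃ K, Adm C N K ∧
      Finite ↥((MulAction.stabilizer N v ⊓ MulAction.stabilizer N w) ⊓ K)) → D G) ∧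
    (ClosedA C →
      (∀ v w : X, T.Adj v w →
        Q27.TNS.Small (MulAction.stabilizer N v ⊓ MulAction.stabilizer N w)) →
      (∀ x : N, (∀ n : ℤ, x ^ n = 1 → n = 0) → ∃ K, Adm C N K ∧ ∀ n : ℤ, x ^ n ∈ K → n = 0) →
      D G) ∧
    (∀ S E : Subgroup N, Q27.TNS.Small S → S ≤ E → (S.relIndex E ≠ 0 ∨
      ∃ f : E →* Multiplicative ℚ, ∀ x, f x = 1 → (x : N) ∈ S) → Q27.TNS.Small E) := by
  refine ⟨fun h => ?_, fun h1 h2 => ?_, fun hA h => ?_, fun hA h1 h2 => ?_, fun S E h hSE hE => ?_⟩
  · exact Q27.TNS.main_one N hC hD hsol hQQ hT hadj hinv hst hQ h
  · exact Q27.TNS.main_one N hC hD hsol hQQ hT hadj hinv hst hQ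
      fun v w hvw => Q27.TNS.small_det h2 (h1 v w hvw)
  · exact Q27.TNS.main_two N hA hD hsol hQQ hT hadj hinv
      (fun g v => Q27.TNS.stab_cyc N hC hsol v (hst v) g) hQ h
  · exact Q27.TNS.main_two N hA hD hsol hQQ hT hadj hinv
      (fun g v => Q27.TNS.stab_cyc N hC hsol v (hst v) g) hQ
      fun v w hvw => Q27.TNS.small_det_fin h2 (h1 v w hvw)
  · exact h.over E hSE hE

end Pool.Agent.Results.MP_c13a79_gt.ResiduallySolvableTrees
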